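import Pool.Agent.E8helper2.ZB.Stm4

/-!
# Contracting homotopies for the multiplication by a product of powers of linear forms
-/

set_option autoImplicit false

namespace Pool.Agent.E8helper89.ZB

open Pool.Agent.E8helper2.ZB Module

section abs

variable {E : Type*} [Ring E]

lemma comm_pow (η M L : E) (h : η * M = M * η + L) (hM : Commute L M) :
    ∀ j : ℕ, η * M ^ (j + 1) = M ^ (j + 1) * η + ((j + 1 : ℕ) : E) * (L * M ^ j) := by
  intro j
  induction j with
  | zero => simp [h]
  | succ j ih =>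
    have e1 : η * M ^ (j + 1 + 1) = (η * M ^ (j + 1)) * M := by
      rw [pow_succ M (j + 1), mul_assoc]
    have e2 : ((j + 1 : ℕ) : E) * (L * M ^ j) * M = ((j + 1 : ℕ) : E) * (L * M ^ (j + 1)) := by
      rw [pow_succ M j]; simp only [mul_assoc]
    have e3 : M ^ (j + 1) * η * M = M ^ (j + 1 + 1) * η + L * M ^ (j + 1) := by
      rw [mul_assoc, h, mul_add, ← mul_assoc, ← pow_succ, (hM.pow_right (j + 1)).eq]
    rw [e1, ih, add_mul, e2, e3]
    push_cast
    noncomm_ring

lemma hom_a (η M L : E) (h : η * M = M * η + L) (hM : Commute L M) (hη : Commute L η) :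
    ∀ j : ℕ, ∃ B : E, ((j.factorial : ℕ) : E) * L ^ j = η ^ j * M ^ j + B * η := by
  intro j
  induction j with
  | zero => exact ⟨0, by simp⟩
  | succ j ih =>
    obtain ⟨B, hB⟩ := ih
    refine ⟨((j + 1 : ℕ) : E) * (L * B) - η ^ j * M ^ (j + 1), ?_⟩
    have h1 : η ^ (j + 1) * M ^ (j + 1)
        = η ^ j * M ^ (j + 1) * η + ((j + 1 : ℕ) : E) * (L * (η ^ j * M ^ j)) := by
      rw [pow_succ η j, mul_assoc, comm_pow η M L h hM j, mul_add, mul_assoc]
      congr 1
      rw [← mul_assoc, ((Nat.cast_commute (j + 1) (η ^ j)).eq).symm, mul_assoc, ← mul_assoc (η ^ j),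
        ← (hη.pow_right j).eq, mul_assoc]
    have h2 : η ^ j * M ^ j = ((j.factorial : ℕ) : E) * L ^ j - B * η := by rw [hB]; abel
    rw [h1, h2, Nat.factorial_succ]
    have h3 : L * (((j.factorial : ℕ) : E) * L ^ j) = ((j.factorial : ℕ) : E) * L ^ (j + 1) := by
      rw [← mul_assoc, ((Nat.cast_commute j.factorial L).eq).symm, mul_assoc, ← pow_succ']
    rw [mul_sub, h3]
    push_cast
    noncomm_ring

lemma hom_b (η M L : E) (h : η * M = M * η + L) (hM : Commute L M) (hη : Commute L η) :
    ∀ j : ℕ, ∃ A : E, (-1) ^ j * (((j.factorial : ℕ) : E) * L ^ j) = M ^ j * η ^ j + η * A := by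
  intro j
  induction j with
  | zero => exact ⟨0, by simp⟩
  | succ j ih =>
    obtain ⟨A, hA⟩ := ih
    refine ⟨-(M ^ (j + 1) * η ^ j + ((j + 1 : ℕ) : E) * (L * A)), ?_⟩
    have h1 : M ^ (j + 1) * η ^ (j + 1)
        = η * (M ^ (j + 1) * η ^ j) - ((j + 1 : ℕ) : E) * (L * (M ^ j * η ^ j)) := by
      rw [pow_succ' η j, ← mul_assoc]
      have := comm_pow η M L h hM j
      have h2 : M ^ (j + 1) * η = η * M ^ (j + 1) - ((j + 1 : ℕ) : E) * (L * M ^ j) := by
        rw [this]; abel
      rw [h2]
      noncomm_ring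
    have h2 : M ^ j * η ^ j = (-1) ^ j * (((j.factorial : ℕ) : E) * L ^ j) - η * A := by
      rw [hA]; abel
    have h3 : L * ((-1) ^ j * (((j.factorial : ℕ) : E) * L ^ j))
        = (-1) ^ j * (((j.factorial : ℕ) : E) * L ^ (j + 1)) := by
      have c1 : Commute L ((-1) ^ j : E) := (Commute.neg_one_right L).pow_right j
      rw [← mul_assoc, c1.eq, mul_assoc, ← mul_assoc L, ((Nat.cast_commute j.factorial L).eq).symm,
        mul_assoc, ← pow_succ']
    have h4 : L * (η * A) = η * (L * A) := by
      rw [← mul_assoc, hη.eq, mul_assoc]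
    have h5 : ((j + 1 : ℕ) : E) * (η * (L * A)) = η * (((j + 1 : ℕ) : E) * (L * A)) := by
      rw [← mul_assoc, (Nat.cast_commute (j + 1) η).eq, mul_assoc]
    have h6 : ((j + 1 : ℕ) : E) * ((-1) ^ j * (((j.factorial : ℕ) : E) * L ^ (j + 1)))
        = (-1) ^ j * ((((j + 1).factorial : ℕ) : E) * L ^ (j + 1)) := by
      have c1 : Commute ((j + 1 : ℕ) : E) ((-1) ^ j : E) := Nat.cast_commute _ _
      rw [← mul_assoc, c1.eq, mul_assoc, ← mul_assoc ((j + 1 : ℕ) : E), Nat.factorial_succ]
      push_cast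
      rfl
    rw [h1, h2, mul_sub, mul_sub, h3, h4, h5, h6, pow_succ (-1 : E) j]
    generalize ((((j + 1).factorial : ℕ) : E) * L ^ (j + 1)) = T
    generalize (((j + 1 : ℕ) : E) * (L * A)) = U
    generalize M ^ (j + 1) * η ^ j = W
    noncomm_ring

end abs

section conc

/-- commuting operators in characteristic `p` -/
lemma sum_pow_char_comm {R ι : Type*} [Ring R] (p : ℕ) [Fact p.Prime] [CharP R p]
    (A : ι → R) (s : Finset ι) (h : ∀ i j, Commute (A i) (A j)) :
    (∑ i ∈ s, A i) ^ p = ∑ i ∈ s, A i ^ p := by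
  classical
  induction s using Finset.induction_on with
  | empty => simp [(Fact.out : p.Prime).ne_zero]
  | insert a s ha ih =>
    rw [Finset.sum_insert ha, Finset.sum_insert ha,
      add_pow_char_of_commute _ (Commute.sum_right _ _ _ fun j _ => h a j), ih]

variable {p k : ℕ} {R : Type} [CommRing R] {X : Type} [MulAction (GG p k) X]

/-- the product of the multiplication by `a` and of the shift by the generator `i` -/
def sh (a : X → R) (i : Fin k) : Module.End R (X → R) where
  toFun F σ := a σ * F (gen p k i • σ)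
  map_add' F G := by funext σ; simp only [Pi.add_apply]; ring
  map_smul' c F := by
    funext σ; simp only [Pi.smul_apply, smul_eq_mul, RingHom.id_apply]; ring

lemma sh_apply (a : X → R) (i : Fin k) (F : X → R) (σ : X) :
    sh (p := p) a i F σ = a σ * F (gen p k i • σ) := rfl

lemma sh_comm (a b : X → R) (i j : Fin k) (ha : ∀ (g : GG p k) σ, a (g • σ) = a σ)
    (hb : ∀ (g : GG p k) σ, b (g • σ) = b σ) :
    Commute (sh (p := p) a i) (sh (p := p) b j) := by
  refine LinearMap.ext fun F => funext fun σ => ?_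
  simp only [Module.End.mul_apply, sh_apply]
  rw [ha, hb, smul_smul, smul_smul, mul_comm (gen p k i)]
  ring

lemma sh_pow (a : X → R) (i : Fin k) (ha : ∀ (g : GG p k) σ, a (g • σ) = a σ) (n : ℕ)
    (F : X → R) (σ : X) :
    ((sh (p := p) a i) ^ n) F σ = a σ ^ n * F ((gen p k i) ^ n • σ) := by
  induction n generalizing σ with
  | zero => simp
  | succ n ih =>
    rw [pow_succ', Module.End.mul_apply, sh_apply, ih, ha, smul_smul, ← pow_succ (gen p k i)]
    ring

lemma gen_pow_p (i : Fin k) : (gen p k i) ^ p = 1 := by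
  unfold gen
  rw [← ofAdd_nsmul]
  have : p • (Pi.single i 1 : Fin k → ZMod p) = 0 := by
    funext j
    simp
  rw [this]
  rfl

end conc

theorem kill : Pool.Agent.E8helper2.ZB.S_KILL := by
  intro p k _ R _ _ X _ _ ξ χ0 hyp j
  classical
  have hp : p.Prime := Fact.out
  rcases subsingleton_or_nontrivial R with hR | hR
  · exact ⟨0, 0, fun v => Subsingleton.elim _ _⟩
  rcases isEmpty_or_nonempty X with hX | hX
  · exact ⟨0, 0, fun v => Subsingleton.elim _ _⟩
  have hchR : CharP R p := charP_of_injective_algebraMap (algebraMap (ZMod p) R).injective p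
  have hchE : CharP (Module.End R (X → R)) p := by
    have hi : Function.Injective
        ((algebraMap R (Module.End R (X → R))).comp (algebraMap (ZMod p) R)) := RingHom.injective _
    exact charP_of_injective_ringHom hi p
  -- representatives of the orbits
  let rep : X → X := fun σ => Quotient.out (Quotient.mk (MulAction.orbitRel (GG p k) X) σ)
  have hrep : ∀ (g : GG p k) σ, rep (g • σ) = rep σ := by
    intro g σ
    have : (Quotient.mk (MulAction.orbitRel (GG p k) X) (g • σ)) = Quotient.mk _ σ := by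
      refine Quotient.sound ?_
      exact ⟨g, rfl⟩
    show Quotient.out _ = Quotient.out _
    rw [this]
  have hex : ∀ σ, ∃ g : GG p k, g • rep σ = σ := by
    intro σ
    have h : MulAction.orbitRel (GG p k) X (rep σ) σ :=
      Quotient.mk_out (s := MulAction.orbitRel (GG p k) X) σ
    obtain ⟨g, hg⟩ := (MulAction.orbitRel (GG p k) X).symm h
    exact ⟨g, hg⟩
  choose el hel using hex
  -- the function
  let χ : X → Fin k → ZMod p := fun σ => χ0 (rep σ)
  let f : X → ZMod p := fun σ => ∑ i, χ σ i * (el σ).toAdd i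
  have hχ : ∀ (g : GG p k) σ, χ (g • σ) = χ σ := by
    intro g σ; show χ0 _ = χ0 _; rw [hrep]
  have hf : ∀ (g : GG p k) σ, f (g • σ) = f σ + ∑ i, χ σ i * g.toAdd i := by
    intro g σ
    have h1 : ((el (g • σ))⁻¹ * (g * el σ)) • rep σ = rep σ := by
      rw [mul_smul, mul_smul, hel σ, inv_smul_eq_iff]
      conv_rhs => rw [← hrep g σ]
      exact (hel (g • σ)).symm
    have h2 := hyp (rep σ) _ h1
    have h3 : ∑ i, χ0 (rep σ) i * ((el (g • σ))⁻¹ * (g * el σ)).toAdd i
        = (∑ i, χ σ i * g.toAdd i) + f σ - f (g • σ) := by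
      show _ = (∑ i, χ σ i * g.toAdd i) + (∑ i, χ σ i * (el σ).toAdd i)
        - ∑ i, χ (g • σ) i * (el (g • σ)).toAdd i
      rw [hχ, ← Finset.sum_add_distrib, ← Finset.sum_sub_distrib]
      refine Finset.sum_congr rfl fun i _ => ?_
      show _ * (-(el (g • σ)).toAdd i + (g.toAdd i + (el σ).toAdd i)) = _
      ring
    rw [h3] at h2
    linear_combination -h2
  let lf : X → R := fun σ => ∑ i, algebraMap (ZMod p) R (χ0 σ i) * ξ i
  let c : X → R := fun σ => lf (rep σ)
  have hcg : ∀ (g : GG p k) σ, c (g • σ) = c σ := by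
    intro g σ; show lf _ = lf _; rw [hrep]
  let a : Fin k → X → R := fun i σ => algebraMap (ZMod p) R (χ σ i) * ξ i
  have hag : ∀ i (g : GG p k) σ, a i (g • σ) = a i σ := by
    intro i g σ; show _ * _ = _ * _; rw [hχ]
  let m : Module.End R (X → R) := LinearMap.mulLeft R (fun σ => algebraMap (ZMod p) R (f σ))
  let u : Module.End R (X → R) := ∑ i, sh (p := p) (a i) i
  have hua : ∀ F σ, u F σ = ∑ i, a i σ * F (gen p k i • σ) := by
    intro F σ
    show (∑ i, sh (p := p) (a i) i) F σ = _
    rw [LinearMap.sum_apply, Finset.sum_apply]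
    rfl
  have h1 : eta p X ξ * m = m * eta p X ξ + u := by
    refine LinearMap.ext fun F => funext fun σ => ?_
    rw [Module.End.mul_apply, LinearMap.add_apply, Module.End.mul_apply, Pi.add_apply, hua]
    show ∑ i, ξ i * (algebraMap (ZMod p) R (f (gen p k i • σ)) * F (gen p k i • σ)
        - algebraMap (ZMod p) R (f σ) * F σ)
      = algebraMap (ZMod p) R (f σ) * (∑ i, ξ i * (F (gen p k i • σ) - F σ))
        + ∑ i, algebraMap (ZMod p) R (χ σ i) * ξ i * F (gen p k i • σ)
    rw [Finset.mul_sum, ← Finset.sum_add_distrib]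
    refine Finset.sum_congr rfl fun i _ => ?_
    have h2 : f (gen p k i • σ) = f σ + χ σ i := by
      rw [hf]
      congr 1
      rw [Finset.sum_eq_single i]
      · simp [gen]
      · intro j _ hj
        simp [gen, Pi.single_eq_of_ne hj]
      · intro h; exact absurd (Finset.mem_univ i) h
    rw [h2, map_add]
    ring
  have heta : ∀ b : X → R, (∀ (g : GG p k) σ, b (g • σ) = b σ) →
      Commute (LinearMap.mulLeft R b : Module.End R (X → R)) (eta p X ξ) := by
    intro b hb
    refine LinearMap.ext fun F => funext fun σ => ?_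
    show b σ * (∑ i, ξ i * (F (gen p k i • σ) - F σ))
      = ∑ i, ξ i * (b (gen p k i • σ) * F (gen p k i • σ) - b σ * F σ)
    rw [Finset.mul_sum]
    refine Finset.sum_congr rfl fun i _ => ?_
    rw [hb]; ring
  have h2 : Commute u (eta p X ξ) := by
    refine Commute.sum_left _ _ _ fun j _ => ?_
    refine LinearMap.ext fun F => funext fun σ => ?_
    show a j σ * (∑ i, ξ i * (F (gen p k i • gen p k j • σ) - F (gen p k j • σ)))
      = ∑ i, ξ i * (a j (gen p k i • σ) * F (gen p k j • gen p k i • σ) - a j σ * F (gen p k j • σ))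
    rw [Finset.mul_sum]
    refine Finset.sum_congr rfl fun i _ => ?_
    rw [hag, smul_smul, smul_smul, mul_comm (gen p k i)]
    ring
  have hbu : ∀ b : X → R, (∀ (g : GG p k) σ, b (g • σ) = b σ) →
      Commute (LinearMap.mulLeft R b : Module.End R (X → R)) u := by
    intro b hb
    refine Commute.sum_right _ _ _ fun j _ => ?_
    refine LinearMap.ext fun F => funext fun σ => ?_
    show b σ * (a j σ * F (gen p k j • σ)) = a j σ * (b (gen p k j • σ) * F (gen p k j • σ))
    rw [hb]; ring
  have hbm : ∀ b : X → R, Commute (LinearMap.mulLeft R b : Module.End R (X → R)) m := by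
    intro b
    refine LinearMap.ext fun F => funext fun σ => ?_
    show b σ * (algebraMap (ZMod p) R (f σ) * F σ) = algebraMap (ZMod p) R (f σ) * (b σ * F σ)
    ring
  have hup : u ^ p = LinearMap.mulLeft R (fun σ => c σ ^ p) := by
    have e : u ^ p = ∑ i, (sh (p := p) (a i) i) ^ p :=
      sum_pow_char_comm p _ _ fun i j => sh_comm _ _ _ _ (hag i) (hag j)
    rw [e]
    refine LinearMap.ext fun F => funext fun σ => ?_
    rw [LinearMap.sum_apply, Finset.sum_apply]
    show _ = c σ ^ p * F σ
    have e2 : c σ ^ p = ∑ i, a i σ ^ p := sum_pow_char p _ _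
    rw [e2, Finset.sum_mul]
    refine Finset.sum_congr rfl fun i _ => ?_
    rw [sh_pow _ _ (hag i), gen_pow_p, one_smul]
  -- the operators
  let M : Module.End R (X → R) := u ^ (p - 1) * m
  let L : Module.End R (X → R) := LinearMap.mulLeft R (fun σ => c σ ^ p)
  have hcp : ∀ (g : GG p k) σ, c (g • σ) ^ p = c σ ^ p := by
    intro g σ; rw [hcg]
  have hLη : Commute L (eta p X ξ) := heta _ hcp
  have hLM : Commute L M := ((hbu _ hcp).pow_right (p - 1)).mul_right (hbm _)
  have hM : eta p X ξ * M = M * eta p X ξ + L := by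
    show eta p X ξ * (u ^ (p - 1) * m) = u ^ (p - 1) * m * eta p X ξ + L
    rw [← mul_assoc, ← (h2.pow_left (p - 1)).eq, mul_assoc, h1, mul_add, ← mul_assoc]
    congr 1
    rw [← pow_succ, Nat.sub_add_cancel hp.one_le, hup]
  -- the unit
  obtain ⟨w, hw⟩ : ∃ w : R, w * (((p - 1).factorial : ℕ) : R) = 1 := by
    have hne : (((p - 1).factorial : ℕ) : ZMod p) ≠ 0 := by
      intro h
      rw [CharP.cast_eq_zero_iff (ZMod p) p, hp.dvd_factorial] at h
      have := hp.pos
      omega
    refine ⟨algebraMap (ZMod p) R (((((p - 1).factorial : ℕ) : ZMod p))⁻¹), ?_⟩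
    have : (((p - 1).factorial : ℕ) : R)
        = algebraMap (ZMod p) R ((((p - 1).factorial : ℕ) : ZMod p)) := (map_natCast _ _).symm
    rw [this, ← map_mul, inv_mul_cancel₀ hne, map_one]
  -- the complementary factor
  let rest : X → R := fun s => ∏ σ ∈ Finset.univ.erase (rep s), lf σ ^ (p * (p - 1))
  have hrest : ∀ (g : GG p k) σ, rest (g • σ) = rest σ := by
    intro g σ
    show ∏ τ ∈ Finset.univ.erase (rep (g • σ)), _ = ∏ τ ∈ Finset.univ.erase (rep σ), _
    rw [hrep]
  let R0 : Module.End R (X → R) := LinearMap.mulLeft R rest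
  have hR0 : Commute R0 (eta p X ξ) := heta _ hrest
  have hLpow : ∀ (n : ℕ) (F : X → R) (σ : X), (L ^ n) F σ = (c σ ^ p) ^ n * F σ := by
    intro n F
    induction n with
    | zero => intro σ; simp
    | succ n ih =>
      intro σ
      rw [pow_succ', Module.End.mul_apply]
      show c σ ^ p * ((L ^ n) F σ) = _
      rw [ih]; ring
  have hprod : ∀ v : X → R, (∏ σ : X, lf σ ^ (p * (p - 1))) • v = (L ^ (p - 1)) (R0 v) := by
    intro v
    funext s
    rw [hLpow]
    show (∏ σ : X, lf σ ^ (p * (p - 1))) * v s = (lf (rep s) ^ p) ^ (p - 1) * (rest s * v s)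
    rw [← Finset.mul_prod_erase Finset.univ _ (Finset.mem_univ (rep s)), ← pow_mul, mul_assoc]
  have hfac : ∀ (n : ℕ) (v : X → R), ((n : ℕ) : Module.End R (X → R)) v = ((n : ℕ) : R) • v := by
    intro n v
    rw [Module.End.natCast_apply, Nat.cast_smul_eq_nsmul]
  show ∃ A B : (X → R) →ₗ[R] (X → R), ∀ v : X → R,
      (∏ σ : X, lf σ ^ (p * (p - 1))) • v = th p X ξ (j + 1) (A v) + B (th p X ξ j v)
  by_cases hj : Even j
  · obtain ⟨B, hB⟩ := hom_a (eta p X ξ) M L hM hLM hLη (p - 1)
    refine ⟨w • (M ^ (p - 1) * R0), w • (B * R0), fun v => ?_⟩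
    have ht1 : th p X ξ (j + 1) = (eta p X ξ) ^ (p - 1) := by
      unfold th
      rw [if_neg (by rw [Nat.even_add_one]; exact fun h => h hj)]
    have ht2 : th p X ξ j = eta p X ξ := by unfold th; rw [if_pos hj]
    rw [ht1, ht2, hprod]
    have h3 := congrArg (fun T : Module.End R (X → R) => w • T (R0 v)) hB
    simp only [Module.End.mul_apply, LinearMap.add_apply, hfac, smul_add] at h3
    rw [smul_smul, hw, one_smul] at h3
    rw [h3]
    have h4 : eta p X ξ (R0 v) = R0 (eta p X ξ v) := by
      have := congrArg (fun T : Module.End R (X → R) => T v) hR0.eq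
      simpa [Module.End.mul_apply] using this.symm
    simp only [LinearMap.smul_apply, Module.End.mul_apply, map_smul, h4]
  · obtain ⟨A, hA⟩ := hom_b (eta p X ξ) M L hM hLM hLη (p - 1)
    refine ⟨((-1) ^ (p - 1) * w) • (A * R0), ((-1) ^ (p - 1) * w) • (M ^ (p - 1) * R0),
      fun v => ?_⟩
    have ht1 : th p X ξ (j + 1) = eta p X ξ := by
      unfold th
      rw [if_pos (by rw [Nat.even_add_one]; exact hj)]
    have ht2 : th p X ξ j = (eta p X ξ) ^ (p - 1) := by unfold th; rw [if_neg hj]
    rw [ht1, ht2, hprod]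
    have hs : ∀ (n : ℕ) (v : X → R), ((-1 : Module.End R (X → R)) ^ n) v = ((-1 : R) ^ n) • v := by
      intro n v
      induction n with
      | zero => simp
      | succ n ih => rw [pow_succ', pow_succ', Module.End.mul_apply, ih]; simp
    have h3 := congrArg (fun T : Module.End R (X → R) => ((-1) ^ (p - 1) * w) • T (R0 v)) hA
    simp only [Module.End.mul_apply, LinearMap.add_apply, hfac, hs, smul_add] at h3
    have h5 : ((-1) ^ (p - 1) * w) * ((-1) ^ (p - 1) * (((p - 1).factorial : ℕ) : R)) = 1 := by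
      have : ((-1) ^ (p - 1) * w) * ((-1) ^ (p - 1) * (((p - 1).factorial : ℕ) : R))
          = ((-1) ^ (p - 1) * (-1) ^ (p - 1)) * (w * (((p - 1).factorial : ℕ) : R)) := by ring
      rw [this, hw, ← mul_pow]
      simp
    rw [smul_smul, smul_smul, mul_assoc ((-1) ^ (p - 1) * w), h5, one_smul] at h3
    have hRpow : ∀ (n : ℕ) (v : X → R), (eta p X ξ ^ n) (R0 v) = R0 ((eta p X ξ ^ n) v) := by
      intro n v
      have := congrArg (fun T : Module.End R (X → R) => T v) (hR0.pow_right n).eq
      simpa [Module.End.mul_apply] using this.symm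
    rw [h3]
    simp only [LinearMap.smul_apply, Module.End.mul_apply, map_smul, hRpow]
    abel

end Pool.Agent.E8helper89.ZB
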