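import Pool.Agent.E8helper2.ZB.Stm4

/-!
# Nonzero polynomials in the single variables form a regular sequence
-/

set_option autoImplicit false

namespace Pool.Agent.E8helper89.ZB

open MvPolynomial

lemma mem_map_C_iff_map {A : Type} [CommRing A] (I : Ideal A) (q : Polynomial A) :
    q ∈ I.map (Polynomial.C : A →+* Polynomial A) ↔ q.map (Ideal.Quotient.mk I) = 0 := by
  rw [Ideal.mem_map_C_iff, Polynomial.ext_iff]
  refine forall_congr' fun n => ?_
  rw [Polynomial.coeff_map, Polynomial.coeff_zero, Ideal.Quotient.eq_zero_iff_mem]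

lemma reg_abs {K A : Type} [Field K] [CommRing A] [Algebra K A] (I : Ideal A) (f : Polynomial K)
    (hf : f ≠ 0) (q : Polynomial A)
    (h : f.map (algebraMap K A) * q ∈ I.map (Polynomial.C : A →+* Polynomial A)) :
    q ∈ I.map (Polynomial.C : A →+* Polynomial A) := by
  rw [mem_map_C_iff_map] at h ⊢
  rw [Polynomial.map_mul, Polynomial.map_map] at h
  have hm : (f * Polynomial.C (f.leadingCoeff)⁻¹).Monic := Polynomial.monic_mul_leadingCoeff_inv hf
  have hm' := hm.map ((Ideal.Quotient.mk I).comp (algebraMap K A))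
  rw [← hm'.mul_right_eq_zero_iff, Polynomial.map_mul, mul_right_comm, h, zero_mul]

lemma aeval_eqv {K B C : Type} [Field K] [CommRing B] [Algebra K B] [CommRing C] [Algebra K C]
    (φ : B ≃ₐ[K] C) (z : B) (f : Polynomial K) :
    φ (Polynomial.aeval z f) = Polynomial.aeval (φ z) f :=
  (Polynomial.aeval_algHom_apply (φ : B →ₐ[K] C) z f).symm

lemma aeval_Cc {K A : Type} [Field K] [CommRing A] [Algebra K A] (x : A) (f : Polynomial K) :
    Polynomial.aeval (Polynomial.C x : Polynomial A) f = Polynomial.C (Polynomial.aeval x f) :=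
  Polynomial.aeval_algHom_apply (Polynomial.CAlgHom : A →ₐ[K] Polynomial A) x f

/-- abstract form: `φ` an isomorphism of `B` with a polynomial ring -/
lemma reg_abs2 {K A B : Type} [Field K] [CommRing A] [Algebra K A] [CommRing B] [Algebra K B]
    (φ : B ≃ₐ[K] Polynomial A) (S : Set B) (T : Set A)
    (hST : ∀ x ∈ S, ∃ y ∈ T, φ x = Polynomial.C y)
    (hTS : ∀ y ∈ T, ∃ x ∈ S, φ x = Polynomial.C y) (f : Polynomial K) (hf : f ≠ 0) (z a : B)
    (hz : φ z = Polynomial.X) (h : Polynomial.aeval z f * a ∈ Ideal.span S) :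
    a ∈ Ideal.span S := by
  have hspan : (Ideal.span S).map (φ : B →+* Polynomial A)
      = (Ideal.span T).map (Polynomial.C : A →+* Polynomial A) := by
    rw [Ideal.map_span, Ideal.map_span]
    congr 1
    ext y
    constructor
    · rintro ⟨x, hx, rfl⟩
      obtain ⟨t, ht, e⟩ := hST x hx
      exact ⟨t, ht, e.symm⟩
    · rintro ⟨t, ht, rfl⟩
      obtain ⟨x, hx, e⟩ := hTS t ht
      exact ⟨x, hx, e⟩
  have hfz : φ (Polynomial.aeval z f) = f.map (algebraMap K A) := by
    have h1 : φ (Polynomial.aeval z f) = Polynomial.aeval (φ z) f :=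
      (Polynomial.aeval_algHom_apply (φ : B →ₐ[K] Polynomial A) z f).symm
    rw [h1, hz, Polynomial.aeval_X_left_eq_map]
  have h1 : φ (Polynomial.aeval z f * a) ∈ (Ideal.span S).map (φ : B →+* Polynomial A) :=
    Ideal.mem_map_of_mem (φ : B →+* Polynomial A) h
  rw [hspan, map_mul, hfz] at h1
  have h2 := reg_abs _ f hf (φ a) h1
  rw [← hspan] at h2
  have hs : Function.Surjective (φ : B →+* Polynomial A) := φ.surjective
  obtain ⟨x, hx, e⟩ := (Ideal.mem_map_iff_of_surjective _ hs).1 h2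
  have : x = a := φ.injective e
  exact this ▸ hx

lemma exφ (c : ℕ) (K : Type) [Field K] (j : Fin c) :
    ∃ φ : MvPolynomial (Fin c) K ≃ₐ[K] Polynomial (MvPolynomial {i : Fin c // i ≠ j} K),
      φ (X j) = Polynomial.X ∧ ∀ (i : Fin c) (h : i ≠ j), φ (X i) = Polynomial.C (X ⟨i, h⟩) := by
  classical
  refine ⟨(renameEquiv K (Equiv.optionSubtypeNe j).symm).trans (optionEquivLeft K _), ?_, ?_⟩
  · rw [AlgEquiv.trans_apply, renameEquiv_apply, rename_X]
    simp
  · intro i h
    rw [AlgEquiv.trans_apply, renameEquiv_apply, rename_X]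
    simp [h]

theorem reg : Pool.Agent.E8helper2.ZB.S_REG := by
  intro c K _ F hF j a ha
  obtain ⟨φ, hj, hi⟩ := exφ c K j
  have key : ∀ (i : Fin c) (h : i ≠ j),
      φ (Polynomial.aeval (X i : MvPolynomial (Fin c) K) (F i))
        = Polynomial.C (Polynomial.aeval
          (X ⟨i, h⟩ : MvPolynomial {i : Fin c // i ≠ j} K) (F i)) := by
    intro i h
    have h1 : φ (Polynomial.aeval (X i : MvPolynomial (Fin c) K) (F i))
        = Polynomial.aeval (φ (X i)) (F i) := aeval_eqv φ (X i) (F i)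
    rw [h1, hi i h, aeval_Cc]
  refine reg_abs2 φ _ {y | ∃ (i : Fin c) (h : i ≠ j), i < j ∧ y = Polynomial.aeval
          (X ⟨i, h⟩ : MvPolynomial {i : Fin c // i ≠ j} K) (F i)} ?_ ?_ (F j) (hF j) (X j) a hj ha
  · rintro x ⟨i, hij, rfl⟩
    exact ⟨_, ⟨i, ne_of_lt hij, hij, rfl⟩, key i (ne_of_lt hij)⟩
  · rintro y ⟨i, h, hij, rfl⟩
    exact ⟨_, ⟨i, hij, rfl⟩, key i h⟩

end Pool.Agent.E8helper89.ZB
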